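import Mathlib

namespace Pool.Agent.Results.MP_ab635e_lc.Closure

open MeasureTheory Filter Topology ENNReal

variable {X : Type*} [MeasurableSpace X]

/-- Total variation distance `ρ(P,Q) = sup_A |P(A) - Q(A)|`, the supremum over measurable sets. -/
noncomputable def rho (P Q : ProbabilityMeasure X) : ℝ :=
  ⨆ A : {A : Set X // MeasurableSet A}, |(P : Measure X).real A.1 - (Q : Measure X).real A.1|

/-- The `ρ`-closure of a family of probability measures. -/
def tvClosure (Ps : Set (ProbabilityMeasure X)) : Set (ProbabilityMeasure X) :=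
  {Q | ∀ η : ℝ, 0 < η → ∃ P ∈ Ps, rho P Q < η}

/-- `d_P(f,g) = ∫ |f - g| dP`. -/
noncomputable def dist1 (P : ProbabilityMeasure X) (f g : X → unitInterval) : ℝ :=
  ∫ x, |(f x : ℝ) - (g x : ℝ)| ∂(P : Measure X)

/-- An algorithm: for each `m` a map from labelled samples of size `m` to functions. -/
abbrev Algo (X : Type*) := ∀ m : ℕ, (Fin m → X × unitInterval) → (X → unitInterval)

/-- The worst-case failure probability at sample size `m` and accuracy `ε`. -/
noncomputable def fail (Ps : Set (ProbabilityMeasure X)) (F : Set (X → unitInterval))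
    (A : Algo X) (ε : ℝ) (m : ℕ) : ℝ≥0∞ :=
  ⨆ P ∈ Ps, ⨆ f ∈ F, (Measure.pi (fun _ : Fin m => (P : Measure X)))
    {x | ε < dist1 P f (A m (fun i => (x i, f (x i))))}

/-- The algorithm `A` (with values in `F`) is PAC for `F` with respect to `Ps`. -/
def IsPAC (Ps : Set (ProbabilityMeasure X)) (F : Set (X → unitInterval)) (A : Algo X) : Prop :=
  (∀ m s, A m s ∈ F) ∧ ∀ ε : ℝ, 0 < ε → Tendsto (fail Ps F A ε) atTop (𝓝 0)

/-- `F` is PAC learnable with respect to `Ps`. -/
def PACLearnable (Ps : Set (ProbabilityMeasure X)) (F : Set (X → unitInterval)) : Prop :=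
  ∃ A : Algo X, IsPAC Ps F A

lemma le_rho (P Q : ProbabilityMeasure X) {A : Set X} (hA : MeasurableSet A) :
    |(P : Measure X).real A - (Q : Measure X).real A| ≤ rho P Q := by
  have hb : BddAbove (Set.range (fun A : {A : Set X // MeasurableSet A} =>
      |(P : Measure X).real A.1 - (Q : Measure X).real A.1|)) := by
    refine ⟨1, ?_⟩
    rintro _ ⟨A, rfl⟩
    have h1 : (P : Measure X).real A.1 ≤ 1 := measureReal_le_one
    have h2 : (Q : Measure X).real A.1 ≤ 1 := measureReal_le_one
    have h3 : 0 ≤ (P : Measure X).real A.1 := measureReal_nonneg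
    have h4 : 0 ≤ (Q : Measure X).real A.1 := measureReal_nonneg
    simp only
    rw [abs_le]; constructor <;> linarith
  exact le_ciSup hb (⟨A, hA⟩ : {A : Set X // MeasurableSet A})

lemma meas_le (P Q : ProbabilityMeasure X) {r : ℝ} (hr : rho P Q ≤ r)
    {A : Set X} (hA : MeasurableSet A) :
    (Q : Measure X) A ≤ (P : Measure X) A + ENNReal.ofReal r := by
  have h := le_rho P Q hA
  have h0 : 0 ≤ r := (abs_nonneg _).trans (h.trans hr)
  have h1 : (Q : Measure X).real A ≤ (P : Measure X).real A + r := by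
    have := (abs_le.mp (h.trans hr)).1
    linarith
  rw [← ofReal_measureReal (μ := (Q : Measure X)), ← ofReal_measureReal (μ := (P : Measure X)),
    ← ENNReal.ofReal_add measureReal_nonneg h0]
  exact ENNReal.ofReal_le_ofReal h1

lemma lint_le (P Q : ProbabilityMeasure X) {r : ℝ} (hr : rho P Q ≤ r)
    (g : X → ℝ≥0∞) (hg1 : ∀ x, g x ≤ 1) :
    ∫⁻ x, g x ∂(Q : Measure X) ≤ ∫⁻ x, g x ∂(P : Measure X) + ENNReal.ofReal r := by
  obtain ⟨S, hS, h1, h2⟩ := hahn_decomposition (Q : Measure X) (P : Measure X)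
  have hle1 : (P : Measure X).restrict S ≤ (Q : Measure X).restrict S := by
    refine Measure.le_iff.mpr fun t ht => ?_
    rw [Measure.restrict_apply ht, Measure.restrict_apply ht]
    exact h1 _ (ht.inter hS) Set.inter_subset_right
  have hle2 : (Q : Measure X).restrict Sᶜ ≤ (P : Measure X).restrict Sᶜ := by
    refine Measure.le_iff.mpr fun t ht => ?_
    rw [Measure.restrict_apply ht, Measure.restrict_apply ht]
    exact h2 _ (ht.inter hS.compl) Set.inter_subset_right
  rw [← lintegral_add_compl g hS (μ := (Q : Measure X)),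
    ← lintegral_add_compl g hS (μ := (P : Measure X))]
  have e1 : ∫⁻ x in S, g x ∂(Q : Measure X) ≤
      ∫⁻ x in S, g x ∂(P : Measure X) + ENNReal.ofReal r := by
    have hdec := Measure.sub_add_cancel_of_le hle1
    rw [← hdec, lintegral_add_measure, add_comm]
    gcongr
    calc ∫⁻ x, g x ∂((Q : Measure X).restrict S - (P : Measure X).restrict S)
        ≤ ∫⁻ x, 1 ∂((Q : Measure X).restrict S - (P : Measure X).restrict S) :=
          lintegral_mono hg1
      _ = ((Q : Measure X).restrict S - (P : Measure X).restrict S) Set.univ := by simp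
      _ = (Q : Measure X) S - (P : Measure X) S := by
          rw [Measure.sub_apply MeasurableSet.univ hle1]; simp
      _ ≤ ENNReal.ofReal r := by
          rw [tsub_le_iff_left]
          exact meas_le P Q hr hS
  have e2 : ∫⁻ x in Sᶜ, g x ∂(Q : Measure X) ≤ ∫⁻ x in Sᶜ, g x ∂(P : Measure X) :=
    lintegral_mono' hle2 le_rfl
  calc _ ≤ (∫⁻ x in S, g x ∂(P : Measure X) + ENNReal.ofReal r) +
        ∫⁻ x in Sᶜ, g x ∂(P : Measure X) := add_le_add e1 e2
    _ = _ := by ring

lemma pi_le_meas (P Q : ProbabilityMeasure X) {r : ℝ} (hr : rho P Q ≤ r) (m : ℕ) :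
    ∀ B : Set (Fin m → X), MeasurableSet B →
      (Measure.pi (fun _ : Fin m => (Q : Measure X))) B ≤
      (Measure.pi (fun _ : Fin m => (P : Measure X))) B + m * ENNReal.ofReal r := by
  induction m with
  | zero =>
    intro B hB
    have : (Measure.pi (fun _ : Fin 0 => (Q : Measure X))) =
        (Measure.pi (fun _ : Fin 0 => (P : Measure X))) := by
      rw [Measure.pi_of_empty, Measure.pi_of_empty]
    rw [this]; simp
  | succ m ih =>
    intro B hB
    have hQ := measurePreserving_piFinSuccAbove (fun _ : Fin (m+1) => (Q : Measure X)) 0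
    have hP := measurePreserving_piFinSuccAbove (fun _ : Fin (m+1) => (P : Measure X)) 0
    set e := MeasurableEquiv.piFinSuccAbove (fun _ : Fin (m+1) => X) 0 with he
    have hB' : MeasurableSet (e.symm ⁻¹' B) := e.symm.measurable hB
    have key : ∀ R : ProbabilityMeasure X,
        (Measure.pi (fun _ : Fin (m+1) => (R : Measure X))) B =
        ∫⁻ x, (Measure.pi (fun _ : Fin m => (R : Measure X)))
          (Prod.mk x ⁻¹' (e.symm ⁻¹' B)) ∂(R : Measure X) := by
      intro R
      have hR := measurePreserving_piFinSuccAbove (fun _ : Fin (m+1) => (R : Measure X)) 0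
      have := hR.measure_preimage (s := e.symm ⁻¹' B) hB'.nullMeasurableSet
      rw [← he] at this
      have hpre : e ⁻¹' (e.symm ⁻¹' B) = B := by
        ext x; simp
      rw [hpre] at this
      rw [this, Measure.prod_apply hB']
    rw [key Q, key P]
    calc ∫⁻ x, (Measure.pi (fun _ : Fin m => (Q : Measure X)))
          (Prod.mk x ⁻¹' (e.symm ⁻¹' B)) ∂(Q : Measure X)
        ≤ ∫⁻ x, ((Measure.pi (fun _ : Fin m => (P : Measure X)))
          (Prod.mk x ⁻¹' (e.symm ⁻¹' B)) + m * ENNReal.ofReal r) ∂(Q : Measure X) :=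
          lintegral_mono fun x => ih _ (measurable_prodMk_left hB')
      _ = ∫⁻ x, (Measure.pi (fun _ : Fin m => (P : Measure X)))
          (Prod.mk x ⁻¹' (e.symm ⁻¹' B)) ∂(Q : Measure X) + m * ENNReal.ofReal r := by
          rw [lintegral_add_right _ measurable_const]; simp
      _ ≤ (∫⁻ x, (Measure.pi (fun _ : Fin m => (P : Measure X)))
          (Prod.mk x ⁻¹' (e.symm ⁻¹' B)) ∂(P : Measure X) + ENNReal.ofReal r)
            + m * ENNReal.ofReal r := by
          gcongr
          exact lint_le P Q hr _ (fun x => prob_le_one)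
      _ = _ := by push_cast; ring

lemma pi_le (P Q : ProbabilityMeasure X) {r : ℝ} (hr : rho P Q ≤ r) (m : ℕ)
    (B : Set (Fin m → X)) :
      (Measure.pi (fun _ : Fin m => (Q : Measure X))) B ≤
      (Measure.pi (fun _ : Fin m => (P : Measure X))) B + m * ENNReal.ofReal r := by
  have h := pi_le_meas P Q hr m _
    (measurableSet_toMeasurable (Measure.pi (fun _ : Fin m => (P : Measure X))) B)
  rw [measure_toMeasurable] at h
  exact (measure_mono (subset_toMeasurable _ _)).trans h

lemma dist_le (P Q : ProbabilityMeasure X) {r : ℝ} (hr : rho P Q ≤ r)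
    (f g : X → unitInterval) (hf : Measurable f) (hg : Measurable g) :
    dist1 Q f g ≤ dist1 P f g + r := by
  have h0 : 0 ≤ r := (abs_nonneg _).trans ((le_rho P Q MeasurableSet.univ).trans hr)
  have hmeas : Measurable (fun x => |(f x : ℝ) - (g x : ℝ)|) := by
    fun_prop
  have hb : ∀ x, |(f x : ℝ) - (g x : ℝ)| ≤ 1 := by
    intro x
    have h1 := (f x).2.1; have h2 := (f x).2.2
    have h3 := (g x).2.1; have h4 := (g x).2.2
    rw [abs_le]; constructor <;> linarith
  have hint : ∀ R : ProbabilityMeasure X,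
      Integrable (fun x => |(f x : ℝ) - (g x : ℝ)|) (R : Measure X) := by
    intro R
    refine Integrable.of_bound hmeas.aestronglyMeasurable 1 (Eventually.of_forall fun x => ?_)
    rw [Real.norm_eq_abs, abs_abs]; exact hb x
  have hconv : ∀ R : ProbabilityMeasure X, ENNReal.ofReal (dist1 R f g) =
      ∫⁻ x, ENNReal.ofReal |(f x : ℝ) - (g x : ℝ)| ∂(R : Measure X) := by
    intro R
    exact ofReal_integral_eq_lintegral_ofReal (hint R)
      (Eventually.of_forall fun x => abs_nonneg _)
  have hnn : 0 ≤ dist1 P f g := integral_nonneg fun x => abs_nonneg _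
  have := lint_le P Q hr (fun x => ENNReal.ofReal |(f x : ℝ) - (g x : ℝ)|)
    (fun x => by simpa using hb x)
  rw [← hconv, ← hconv, ← ENNReal.ofReal_add hnn h0] at this
  exact (ENNReal.ofReal_le_ofReal_iff (by positivity)).mp this

theorem result (X : Type*) [MeasurableSpace X] (Ps : Set (ProbabilityMeasure X))
    (F : Set (X → unitInterval)) (hF : ∀ f ∈ F, Measurable f) :
    (∀ A : Algo X, IsPAC Ps F A → IsPAC (tvClosure Ps) F A) ∧
      (PACLearnable Ps F → PACLearnable (tvClosure Ps) F) := by
  have main : ∀ A : Algo X, IsPAC Ps F A → IsPAC (tvClosure Ps) F A := by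
    rintro A ⟨hA, hpac⟩
    refine ⟨hA, fun ε hε => ?_⟩
    refine tendsto_of_tendsto_of_tendsto_of_le_of_le tendsto_const_nhds
      (hpac (ε / 2) (half_pos hε)) (fun m => zero_le) (fun m => ?_)
    refine iSup₂_le fun Q hQ => iSup₂_le fun f hf => ?_
    refine ENNReal.le_of_forall_pos_le_add fun η hη _ => ?_
    obtain ⟨P, hP, hPQ⟩ := hQ (min (ε / 2) (η / (m + 1)))
      (lt_min (half_pos hε) (by positivity))
    have h1 := pi_le P Q hPQ.le m {x | ε < dist1 Q f (A m (fun i => (x i, f (x i))))}
    refine h1.trans ?_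
    refine add_le_add ?_ ?_
    · refine le_trans (measure_mono ?_)
        (le_iSup₂_of_le (f := fun P (_ : P ∈ Ps) => ⨆ f ∈ F,
          (Measure.pi (fun _ : Fin m => (P : Measure X)))
            {x | ε / 2 < dist1 P f (A m (fun i => (x i, f (x i))))}) P hP
          (le_iSup₂_of_le (f := fun f (_ : f ∈ F) =>
          (Measure.pi (fun _ : Fin m => (P : Measure X)))
            {x | ε / 2 < dist1 P f (A m (fun i => (x i, f (x i))))}) f hf le_rfl))
      intro x hx
      simp only [Set.mem_setOf_eq] at hx ⊢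
      have := dist_le P Q hPQ.le f (A m (fun i => (x i, f (x i)))) (hF f hf)
        (hF _ (hA _ _))
      have h3 : min (ε / 2) ((η : ℝ) / (m + 1)) ≤ ε / 2 := min_le_left _ _
      linarith
    · calc (m : ℝ≥0∞) * ENNReal.ofReal (min (ε / 2) ((η : ℝ) / (m + 1)))
          ≤ (m : ℝ≥0∞) * ENNReal.ofReal ((η : ℝ) / (m + 1)) := by
            gcongr; exact min_le_right _ _
        _ = ENNReal.ofReal (m * ((η : ℝ) / (m + 1))) := by
            rw [ENNReal.ofReal_mul (by positivity), ENNReal.ofReal_natCast]
        _ ≤ ENNReal.ofReal η := by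
            apply ENNReal.ofReal_le_ofReal
            rw [mul_div_assoc', div_le_iff₀ (by positivity)]
            nlinarith [η.2, (Nat.cast_nonneg m : (0:ℝ) ≤ m), NNReal.coe_nonneg η]
        _ = η := ENNReal.ofReal_coe_nnreal
  exact ⟨main, fun ⟨A, hA⟩ => ⟨A, main A hA⟩⟩

end Pool.Agent.Results.MP_ab635e_lc.Closure
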