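import Pool.Agent.H21.PAC.Core
import Pool.Agent.H21.PAC.Test

open MeasureTheory Filter Topology ENNReal NNReal
open Pool.Agent.Results.MP_ab635e_lc.Closure
open Pool.Agent.H21.PAC

namespace Pool.Agent.Results.MP_ab635e_lc.Full

universe u
variable {X : Type u} [MeasurableSpace X]

/-- The convex hull: all finite convex combinations of members of `Ps`. -/
def convHull (Ps : Set (ProbabilityMeasure X)) : Set (ProbabilityMeasure X) :=
  {Q | ∃ (l : ℕ) (w : Fin l → ℝ≥0) (P : Fin l → ProbabilityMeasure X), (∀ i, P i ∈ Ps) ∧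
    ∑ i, w i = 1 ∧ (Q : Measure X) = ∑ i, (w i : ℝ≥0∞) • (P i : Measure X)}

/-- Total boundedness in the total variation distance: for every `ε > 0`, finitely many balls of
radius `ε` cover `Ps`. -/
def TotBdd (Ps : Set (ProbabilityMeasure X)) : Prop :=
  ∀ ε : ℝ, 0 < ε → ∃ s : Set (ProbabilityMeasure X), s.Finite ∧ ∀ P ∈ Ps, ∃ C ∈ s, rho C P < ε

lemma rho_symm (P Q : ProbabilityMeasure X) : rho P Q = rho Q P := by
  unfold rho; congr 1; funext A; rw [abs_sub_comm]

lemma intnet (Ps : Set (ProbabilityMeasure X)) (h : TotBdd Ps) (η : ℝ) (hη : 0 < η) :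
    ∃ (k : ℕ) (Pn : Fin k → ProbabilityMeasure X), (∀ i, Pn i ∈ Ps) ∧
      ∀ P ∈ Ps, ∃ i, rho (Pn i) P ≤ η := by
  classical
  obtain ⟨s, hs, hcov⟩ := h (η / 2) (half_pos hη)
  let s' := {C ∈ s | ∃ P ∈ Ps, rho C P < η / 2}
  have hs' : s'.Finite := hs.subset fun _ h => h.1
  let pick : ProbabilityMeasure X → ProbabilityMeasure X := fun C =>
    if h : ∃ P ∈ Ps, rho C P < η / 2 then h.choose else C
  obtain ⟨k, f, -, hf⟩ := (hs'.image pick).fin_param
  refine ⟨k, f, fun i => ?_, fun P hP => ?_⟩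
  · have : f i ∈ pick '' s' := by rw [← hf]; exact Set.mem_range_self i
    obtain ⟨C, hC, hCe⟩ := this
    rw [← hCe]
    have hh : pick C = hC.2.choose := dif_pos hC.2
    rw [hh]; exact hC.2.choose_spec.1
  · obtain ⟨C, hC, hCP⟩ := hcov P hP
    have hex : ∃ P ∈ Ps, rho C P < η / 2 := ⟨P, hP, hCP⟩
    have hCs : C ∈ s' := ⟨hC, hex⟩
    have : pick C ∈ Set.range f := by rw [hf]; exact Set.mem_image_of_mem _ hCs
    obtain ⟨i, hi⟩ := this
    refine ⟨i, ?_⟩
    rw [hi]
    have hh : pick C = hex.choose := dif_pos hex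
    rw [hh]
    have h1 := rho_tri hex.choose C P
    rw [rho_symm hex.choose C] at h1
    have h2 := hex.choose_spec.2
    linarith

open Classical in
lemma cells {k l : ℕ} (Pn : Fin k → ProbabilityMeasure X) (η : ℝ) (hη : 0 ≤ η)
    (Q : ProbabilityMeasure X) (w : Fin l → ℝ≥0) (P : Fin l → ProbabilityMeasure X)
    (hw : ∑ i, w i = 1) (hQ : (Q : Measure X) = ∑ i, (w i : ℝ≥0∞) • (P i : Measure X))
    (κ : Fin l → Fin k) (hκ : ∀ j, rho (Pn (κ j)) (P j) ≤ η) :
    ∃ (c : Fin k → ℝ≥0) (R : Fin k → ProbabilityMeasure X),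
      (Q : Measure X) = ∑ i, (c i : ℝ≥0∞) • (R i : Measure X) ∧ ∑ i, c i = 1 ∧
      ∀ i, rho (Pn i) (R i) ≤ η := by
  let c : Fin k → ℝ≥0 := fun i => ∑ j, if κ j = i then w j else 0
  let S : Fin k → Measure X := fun i =>
    ∑ j, ((if κ j = i then w j else 0 : ℝ≥0) : ℝ≥0∞) • (P j : Measure X)
  have hSA : ∀ i A, S i A = ∑ j, ((if κ j = i then w j else 0 : ℝ≥0) : ℝ≥0∞) *
      (P j : Measure X) A := by
    intro i A
    simp only [S, Measure.finset_sum_apply, Measure.smul_apply, smul_eq_mul]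
  have hSu : ∀ i, S i Set.univ = c i := by
    intro i
    rw [hSA]
    simp only [measure_univ, mul_one, c]
    push_cast; rfl
  have hR : ∀ i, ∃ R : ProbabilityMeasure X, (c i : ℝ≥0∞) • (R : Measure X) = S i ∧
      (c i = 0 → R = Pn i) := by
    intro i
    by_cases hi : c i = 0
    · refine ⟨Pn i, ?_, fun _ => rfl⟩
      have : S i = 0 := by
        rw [← Measure.measure_univ_eq_zero, hSu, hi]; rfl
      rw [this, hi]; simp
    · have hci : (c i : ℝ≥0∞) ≠ 0 := by exact_mod_cast hi
      have hct : (c i : ℝ≥0∞) ≠ ∞ := coe_ne_top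
      refine ⟨⟨(c i : ℝ≥0∞)⁻¹ • S i, ⟨?_⟩⟩, ?_, fun h => absurd h hi⟩
      · rw [Measure.smul_apply, hSu, smul_eq_mul, ENNReal.inv_mul_cancel hci hct]
      · change (c i : ℝ≥0∞) • ((c i : ℝ≥0∞)⁻¹ • S i) = S i
        rw [smul_smul, ENNReal.mul_inv_cancel hci hct, one_smul]
  choose R hR1 hR2 using hR
  refine ⟨c, R, ?_, ?_, ?_⟩
  · rw [hQ]
    simp_rw [hR1]
    ext A hA
    rw [Measure.finset_sum_apply, Measure.finset_sum_apply]
    simp_rw [hSA, Measure.smul_apply, smul_eq_mul]
    rw [Finset.sum_comm]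
    refine Finset.sum_congr rfl fun j _ => ?_
    rw [Finset.sum_eq_single (κ j)]
    · simp
    · intro b _ hb; simp [hb.symm]
    · intro h; exact absurd (Finset.mem_univ _) h
  · rw [← hw]
    simp only [c]
    rw [Finset.sum_comm]
    refine Finset.sum_congr rfl fun j _ => ?_
    simp
  · intro i
    by_cases hi : c i = 0
    · rw [hR2 i hi]
      exact rho_le_of _ _ _ fun A _ => by simpa using hη
    · refine rho_le_of _ _ _ fun A hA => ?_
      have hci : (0:ℝ) < c i := by exact_mod_cast pos_iff_ne_zero.mpr hi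
      have h1 : (c i : ℝ) * (R i : Measure X).real A =
          ∑ j, ((if κ j = i then w j else 0 : ℝ≥0) : ℝ) * (P j : Measure X).real A := by
        have h := congrArg (fun μ : Measure X => (μ A).toReal) (hR1 i)
        simp only [Measure.smul_apply, smul_eq_mul, hSA] at h
        rw [ENNReal.toReal_mul, ENNReal.toReal_sum (fun j _ => ENNReal.mul_ne_top coe_ne_top
          (measure_ne_top _ _))] at h
        simpa [Measure.real, ENNReal.toReal_mul] using h
      have h2 : (c i : ℝ) = ∑ j, ((if κ j = i then w j else 0 : ℝ≥0) : ℝ) := by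
        simp only [c]; push_cast; rfl
      have h3 : (c i : ℝ) * |(Pn i : Measure X).real A - (R i : Measure X).real A| ≤ c i * η := by
        rw [← abs_of_pos hci, ← abs_mul, mul_sub, abs_of_pos hci, h1, h2, Finset.sum_mul,
          ← Finset.sum_sub_distrib, Finset.sum_mul]
        refine (Finset.abs_sum_le_sum_abs _ _).trans (Finset.sum_le_sum fun j _ => ?_)
        rw [← mul_sub, abs_mul, abs_of_nonneg (NNReal.coe_nonneg _)]
        by_cases hj : κ j = i
        · subst hj
          gcongr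
          exact (le_rho _ _ hA).trans (hκ j)
        · simp [hj]
      exact le_of_mul_le_mul_left h3 hci

lemma cells' (Ps : Set (ProbabilityMeasure X)) {k : ℕ} (Pn : Fin k → ProbabilityMeasure X)
    (η : ℝ) (hη : 0 ≤ η) (hcov : ∀ P ∈ Ps, ∃ i, rho (Pn i) P ≤ η)
    (Q : ProbabilityMeasure X) (hQ : Q ∈ convHull Ps) :
    ∃ (c : Fin k → ℝ≥0) (R : Fin k → ProbabilityMeasure X),
      (Q : Measure X) = ∑ i, (c i : ℝ≥0∞) • (R i : Measure X) ∧ ∑ i, c i = 1 ∧
      ∀ i, rho (Pn i) (R i) ≤ η := by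
  obtain ⟨l, w, P, hP, hw, hQ⟩ := hQ
  choose κ hκ using fun j => hcov (P j) (hP j)
  exact cells Pn η hη Q w P hw hQ κ hκ

lemma hullnet (Ps : Set (ProbabilityMeasure X)) (h : TotBdd Ps) (τ : ℝ) (hτ : 0 < τ)
    (hne : (convHull Ps).Nonempty) :
    ∃ (r : ℕ) (Qn : Fin r → ProbabilityMeasure X), 0 < r ∧ (∀ j, Qn j ∈ convHull Ps) ∧
      ∀ Q ∈ convHull Ps, ∃ j, rho (Qn j) Q ≤ τ := by
  classical
  obtain ⟨k, Pn, hPn, hcov⟩ := intnet Ps h (τ / 2) (half_pos hτ)
  have hcomp : IsCompact (stdSimplex ℝ (Fin k)) := isCompact_stdSimplex ℝ (Fin k)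
  have hρ : (0:ℝ) < τ / (2 * (k + 1)) := by positivity
  obtain ⟨t, ht1, ht2, ht3⟩ := hcomp.finite_cover_balls hρ
  obtain ⟨r, f, -, hf⟩ := ht2.fin_param
  have hfs : ∀ j, f j ∈ stdSimplex ℝ (Fin k) := fun j => ht1 (by rw [← hf]; exact ⟨j, rfl⟩)
  have hmk : ∀ j, ∃ Q : ProbabilityMeasure X,
      (Q : Measure X) = ∑ i, ((Real.toNNReal (f j i) : ℝ≥0) : ℝ≥0∞) • (Pn i : Measure X) := by
    intro j
    refine ⟨⟨∑ i, ((Real.toNNReal (f j i) : ℝ≥0) : ℝ≥0∞) • (Pn i : Measure X), ⟨?_⟩⟩, rfl⟩
    rw [Measure.finset_sum_apply]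
    simp only [Measure.smul_apply, measure_univ, smul_eq_mul, mul_one]
    have : ∑ i, Real.toNNReal (f j i) = 1 := by
      rw [← Real.toNNReal_sum_of_nonneg (fun i _ => (hfs j).1 i), (hfs j).2]; simp
    rw [← ENNReal.coe_finset_sum, this]; rfl
  choose Qn hQn using hmk
  have hsum : ∀ j, ∑ i, Real.toNNReal (f j i) = 1 := by
    intro j
    rw [← Real.toNNReal_sum_of_nonneg (fun i _ => (hfs j).1 i), (hfs j).2]; simp
  have hclose : ∀ Q ∈ convHull Ps, ∃ j, rho (Qn j) Q ≤ τ := by
    intro Q hQ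
    obtain ⟨c, R, hQ, hc, hR⟩ := cells' Ps Pn (τ/2) (half_pos hτ).le hcov Q hQ
    have hcs : (fun i => (c i : ℝ)) ∈ stdSimplex ℝ (Fin k) :=
      ⟨fun i => NNReal.coe_nonneg _, by
        have h9 : ∑ i, (c i : ℝ) = 1 := by exact_mod_cast hc
        exact h9⟩
    have := ht3 hcs
    simp only [Set.mem_iUnion] at this
    obtain ⟨y, hy, hdist⟩ := this
    rw [← hf] at hy
    obtain ⟨j, rfl⟩ := hy
    refine ⟨j, rho_le_of _ _ _ fun A hA => ?_⟩
    have e1 : (Qn j : Measure X).real A = ∑ i, f j i * (Pn i : Measure X).real A := by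
      have h := congrArg (fun μ : Measure X => (μ A).toReal) (hQn j)
      simp only [Measure.finset_sum_apply, Measure.smul_apply, smul_eq_mul] at h
      rw [ENNReal.toReal_sum (fun j _ => ENNReal.mul_ne_top coe_ne_top
          (measure_ne_top _ _))] at h
      rw [Measure.real, h]
      refine Finset.sum_congr rfl fun i _ => ?_
      rw [ENNReal.toReal_mul, ENNReal.coe_toReal, Real.coe_toNNReal _ ((hfs j).1 i)]; rfl
    have e2 : (Q : Measure X).real A = ∑ i, (c i : ℝ) * (R i : Measure X).real A := by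
      have h := congrArg (fun μ : Measure X => (μ A).toReal) hQ
      simp only [Measure.finset_sum_apply, Measure.smul_apply, smul_eq_mul] at h
      rw [ENNReal.toReal_sum (fun j _ => ENNReal.mul_ne_top coe_ne_top
          (measure_ne_top _ _))] at h
      rw [Measure.real, h]
      refine Finset.sum_congr rfl fun i _ => ?_
      rw [ENNReal.toReal_mul, ENNReal.coe_toReal]; rfl
    rw [e1, e2, ← Finset.sum_sub_distrib]
    refine (Finset.abs_sum_le_sum_abs _ _).trans ?_
    have hterm : ∀ i, |f j i * (Pn i : Measure X).real A - (c i : ℝ) * (R i : Measure X).real A|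
        ≤ τ / (2 * (k + 1)) + c i * (τ / 2) := by
      intro i
      have hd : |f j i - c i| ≤ τ / (2 * (k + 1)) := by
        have h1 := dist_le_pi_dist (fun i => (c i : ℝ)) (f j) i
        have h2 : dist (fun i => (c i : ℝ)) (f j) < τ / (2 * (k + 1)) := hdist
        rw [Real.dist_eq, abs_sub_comm] at h1
        linarith
      have hp0 : 0 ≤ (Pn i : Measure X).real A := measureReal_nonneg
      have hp1 : (Pn i : Measure X).real A ≤ 1 := measureReal_le_one
      have hr := (le_rho (Pn i) (R i) hA).trans (hR i)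
      have hdec : f j i * (Pn i : Measure X).real A - (c i : ℝ) * (R i : Measure X).real A =
        (f j i - c i) * (Pn i : Measure X).real A +
          c i * ((Pn i : Measure X).real A - (R i : Measure X).real A) := by ring
      rw [hdec]
      refine (abs_add_le _ _).trans (add_le_add ?_ ?_)
      · rw [abs_mul, abs_of_nonneg hp0]
        calc |f j i - c i| * (Pn i : Measure X).real A ≤ |f j i - c i| * 1 := by gcongr
          _ ≤ _ := by rw [mul_one]; exact hd
      · rw [abs_mul, abs_of_nonneg (NNReal.coe_nonneg _)]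
        gcongr
    refine (Finset.sum_le_sum fun i _ => hterm i).trans ?_
    rw [Finset.sum_add_distrib, ← Finset.sum_mul]
    have hc' : ∑ i, (c i : ℝ) = 1 := by exact_mod_cast hc
    rw [hc', Finset.sum_const, Finset.card_univ, Fintype.card_fin, nsmul_eq_mul, one_mul]
    have : (k:ℝ) * (τ / (2 * (k + 1))) ≤ τ / 2 := by
      rw [mul_div_assoc', div_le_div_iff₀ (by positivity) (by positivity)]
      nlinarith
    linarith
  refine ⟨r, Qn, ?_, fun j => ⟨k, fun i => Real.toNNReal (f j i), Pn, hPn, hsum j, hQn j⟩, hclose⟩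
  obtain ⟨Q, hQ⟩ := hne
  obtain ⟨j, -⟩ := hclose Q hQ
  exact lt_of_le_of_lt (Nat.zero_le _) j.2


lemma blocks_mp (N m : ℕ) (Q : ProbabilityMeasure X) :
    MeasurePreserving (fun (z : Fin (N * m) → X) (b : Fin N) (j : Fin m) =>
        z (finProdFinEquiv (b, j)))
      (Measure.pi (fun _ : Fin (N * m) => (Q : Measure X)))
      (Measure.pi (fun _ : Fin N => Measure.pi (fun _ : Fin m => (Q : Measure X)))) :=
  (map_curry N m Q).comp (map_reindex (fun p : Fin N × Fin m => finProdFinEquiv p)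
    finProdFinEquiv.injective Q)

lemma blocks_tv (N m : ℕ) (P Q : ProbabilityMeasure X) {r : ℝ} (hr : rho P Q ≤ r)
    (B : Set (Fin N → Fin m → X)) :
    (Measure.pi (fun _ : Fin N => Measure.pi (fun _ : Fin m => (Q : Measure X)))) B ≤
    (Measure.pi (fun _ : Fin N => Measure.pi (fun _ : Fin m => (P : Measure X)))) B +
      (N * m : ℕ) * ENNReal.ofReal r := by
  set μP := (Measure.pi (fun _ : Fin N => Measure.pi (fun _ : Fin m => (P : Measure X))))
  have hT := measurableSet_toMeasurable μP B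
  calc _ ≤ (Measure.pi (fun _ : Fin N => Measure.pi (fun _ : Fin m => (Q : Measure X))))
        (toMeasurable μP B) := measure_mono (subset_toMeasurable _ _)
    _ ≤ μP (toMeasurable μP B) + (N * m : ℕ) * ENNReal.ofReal r := by
        rw [← (blocks_mp N m Q).measure_preimage hT.nullMeasurableSet,
          ← (blocks_mp N m P).measure_preimage hT.nullMeasurableSet]
        exact pi_le P Q hr (N * m) _
    _ = _ := by rw [measure_toMeasurable]

lemma joint_mp (n N m M : ℕ) (j : Fin n ⊕ (Fin N × Fin m) → Fin M) (hj : Function.Injective j)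
    (Q : ProbabilityMeasure X) :
    MeasurePreserving (fun (z : Fin M → X) =>
        ((fun i => z (j (Sum.inl i)), fun b i => z (j (Sum.inr (b, i)))) :
          (Fin n → X) × (Fin N → Fin m → X)))
      (Measure.pi (fun _ : Fin M => (Q : Measure X)))
      ((Measure.pi (fun _ : Fin n => (Q : Measure X))).prod
        (Measure.pi (fun _ : Fin N => Measure.pi (fun _ : Fin m => (Q : Measure X))))) := by
  have h1 := map_reindex j hj Q
  have h2 := measurePreserving_sumPiEquivProdPi
    (fun _ : Fin n ⊕ (Fin N × Fin m) => (Q : Measure X))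
  have h3 := (MeasurePreserving.id (Measure.pi (fun _ : Fin n => (Q : Measure X)))).prod
    (map_curry N m Q)
  exact h3.comp (h2.comp h1)

lemma learn_unknown (Ps : Set (ProbabilityMeasure X)) (h : TotBdd Ps)
    (F : Set (X → unitInterval)) (hF : ∀ f ∈ F, Measurable f) (A : Algo X)
    (hA : IsPAC Ps F A) (hne : (convHull Ps).Nonempty) (f₀ : X → unitInterval) (hf₀ : f₀ ∈ F)
    (e : ℝ) (he : 0 < e) (he1 : e ≤ 1) :
    ∃ M0 : ℕ, ∀ M ≥ M0, ∃ B : (Fin M → X × unitInterval) → (X → unitInterval),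
      (∀ s, B s ∈ F) ∧ ∀ Q ∈ convHull Ps, ∀ f ∈ F,
        (Measure.pi (fun _ : Fin M => (Q : Measure X)))
          {z | ENNReal.ofReal e < D Q f (B fun i => (z i, f (z i)))} ≤ ENNReal.ofReal e := by
  classical
  set a : ℝ := e / 14 with ha
  have ha0 : 0 < a := by positivity
  have ha1 : a ≤ 1 := by rw [ha]; linarith
  set d : ℝ := a ^ 2 / 16 with hd
  have hd0 : 0 < d := by positivity
  have hE0 : ENNReal.ofReal a ≠ 0 := by simpa using ha0
  have hEt : ENNReal.ofReal a ≠ ∞ := ENNReal.ofReal_ne_top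
  have hev := (hA.2 a ha0).eventually_le_const (u := ENNReal.ofReal d) (by simpa using hd0)
  obtain ⟨m, hm⟩ := hev.exists
  set η : ℝ := min a (d / (m + 1)) with hη
  have hη0 : 0 < η := lt_min ha0 (by positivity)
  have hηd : (m : ℝ) * η ≤ d := by
    have h1 : η ≤ d / (m + 1) := min_le_right _ _
    have h2 : (m : ℝ) * (d / (m + 1)) ≤ d := by
      rw [mul_div_assoc', div_le_iff₀ (by positivity)]; nlinarith
    have h3 : (m:ℝ) * η ≤ m * (d / (m + 1)) := by gcongr
    linarith
  obtain ⟨k, Pn, hPn, hcov⟩ := intnet Ps h η hη0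
  set c0 : ℝ≥0∞ := ENNReal.ofReal (a / (k + 1)) with hc0
  have hc0pos : 0 < c0 := by rw [hc0]; simp; positivity
  have hc01 : c0 ≤ 1 := by
    rw [hc0]
    have : a / (k + 1) ≤ 1 := by
      rw [div_le_one (by positivity)]
      have : (0:ℝ) ≤ k := Nat.cast_nonneg k
      linarith
    simpa using this
  have hkc : (k : ℝ≥0∞) * c0 ≤ ENNReal.ofReal a := by
    rw [hc0, ← ENNReal.ofReal_natCast, ← ENNReal.ofReal_mul (by positivity)]
    refine ENNReal.ofReal_le_ofReal ?_
    rw [mul_div_assoc', div_le_iff₀ (by positivity)]; nlinarith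
  have hlt : 1 - c0 ^ m < 1 :=
    ENNReal.sub_lt_self one_ne_top one_ne_zero (pow_ne_zero m hc0pos.ne')
  have hN : ∃ N : ℕ, (1 - c0 ^ m) ^ N ≤ 2 * ENNReal.ofReal d := by
    have := (ENNReal.tendsto_pow_atTop_nhds_zero_of_lt_one hlt).eventually_le_const
      (u := 2 * ENNReal.ofReal d) (by simpa using hd0)
    exact this.exists
  obtain ⟨N, hN⟩ := hN
  have hcore : ∀ Q : ProbabilityMeasure X, ∃ B : (Fin N → Fin m → X × unitInterval) →
      (X → unitInterval), (∀ s, B s ∈ F) ∧ (Q ∈ convHull Ps →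
      ∀ f ∈ F, (Measure.pi (fun _ : Fin N => Measure.pi (fun _ : Fin m => (Q : Measure X))))
        {z | 7 * ENNReal.ofReal a < D Q f (B fun b j => (z b j, f (z b j)))} ≤
          ENNReal.ofReal a) := by
    intro Q
    by_cases hQ : Q ∈ convHull Ps
    · obtain ⟨c, R, hQ', hc, hR⟩ := cells' Ps Pn η hη0.le hcov Q hQ
      obtain ⟨B, hB1, hB2⟩ := core F m (A m) hF (hA.1 m) f₀ hf₀ Q Pn R
        (fun i => (c i : ℝ≥0∞)) hQ' (by rw [← ENNReal.coe_finset_sum, hc]; rfl) η hR
        (ENNReal.ofReal a) (ENNReal.ofReal d) hE0 hEt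
        (by rw [← ENNReal.ofReal_natCast, ← ENNReal.ofReal_mul (by positivity)]
            exact ENNReal.ofReal_le_ofReal hηd)
        (ENNReal.ofReal_le_ofReal (min_le_left _ _))
        (by
          intro i f hf
          refine le_trans ?_ hm
          refine le_trans (measure_mono ?_)
            (le_iSup₂_of_le (f := fun P (_ : P ∈ Ps) => ⨆ f ∈ F,
              (Measure.pi (fun _ : Fin m => (P : Measure X)))
                {x | a < dist1 P f (A m (fun i => (x i, f (x i))))}) (Pn i) (hPn i)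
              (le_iSup₂_of_le (f := fun f (_ : f ∈ F) =>
              (Measure.pi (fun _ : Fin m => ((Pn i : ProbabilityMeasure X) : Measure X)))
                {x | a < dist1 (Pn i) f (A m (fun i => (x i, f (x i))))}) f hf le_rfl))
          intro x hx
          have hx' : ENNReal.ofReal a < D (Pn i) f (A m (fun i => (x i, f (x i)))) := hx
          change a < dist1 (Pn i) f (A m (fun i => (x i, f (x i))))
          by_contra hcon
          rw [← ofReal_dist1 _ _ _ (hF f hf) (hF _ (hA.1 _ _))] at hx'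
          exact absurd hx' (not_lt.mpr (ENNReal.ofReal_le_ofReal (not_lt.mp hcon))))
        c0 hkc hc01 N hN
      refine ⟨B, hB1, fun _ f hf => (hB2 f hf).trans (le_of_eq ?_)⟩
      have h16 : (16 : ℝ≥0∞) * ENNReal.ofReal d = ENNReal.ofReal a * ENNReal.ofReal a := by
        rw [← ENNReal.ofReal_mul ha0.le, ← ENNReal.ofReal_ofNat,
          ← ENNReal.ofReal_mul (by norm_num), hd]
        congr 1; ring
      rw [h16, ENNReal.mul_div_cancel_right hE0 hEt]
    · exact ⟨fun _ => f₀, fun _ => hf₀, fun h => absurd h hQ⟩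
  choose BQ hB1 hB2 using hcore
  set τ : ℝ := a / (6 * (N * m + 1)) with hτ
  have hτ0 : 0 < τ := by positivity
  have h6τ : 6 * τ = a / (N * m + 1) := by rw [hτ]; field_simp
  have h6a : 6 * τ ≤ a := by
    rw [h6τ, div_le_iff₀ (by positivity)]
    have : (0:ℝ) ≤ N * m := by positivity
    nlinarith
  have hNm : ((N * m : ℕ) : ℝ≥0∞) * ENNReal.ofReal (6 * τ) ≤ ENNReal.ofReal a := by
    rw [← ENNReal.ofReal_natCast, ← ENNReal.ofReal_mul (by positivity)]
    refine ENNReal.ofReal_le_ofReal ?_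
    rw [h6τ, mul_div_assoc', div_le_iff₀ (by positivity)]
    push_cast; nlinarith
  obtain ⟨r, Qn, hr, hQn, hQcov⟩ := hullnet Ps h τ hτ0 hne
  obtain ⟨n, T, hT, hTest⟩ := test hr Qn τ hτ0 a ha0
  refine ⟨Fintype.card (Fin n ⊕ (Fin N × Fin m)), fun M hM => ?_⟩
  have hjex : Nonempty (Fin n ⊕ (Fin N × Fin m) ↪ Fin M) :=
    Function.Embedding.nonempty_of_card_le (by simpa using hM)
  obtain ⟨j⟩ := hjex
  refine ⟨fun s => BQ (Qn (T fun i => (s (j (Sum.inl i))).1)) fun b i => s (j (Sum.inr (b, i))),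
    fun s => hB1 _ _, fun Q hQ f hf => ?_⟩
  set μ1 := (Measure.pi (fun _ : Fin n => (Q : Measure X))) with hμ1
  set μ2 := (Measure.pi (fun _ : Fin N => Measure.pi (fun _ : Fin m => (Q : Measure X))))
    with hμ2
  have hmp := joint_mp n N m M j j.injective Q
  let bad : Fin r → Set (Fin N → Fin m → X) := fun i =>
    {z | 7 * ENNReal.ofReal a < D (Qn i) f (BQ (Qn i) fun b j => (z b j, f (z b j)))}
  let V : Fin r → Set (Fin N → Fin m → X) := fun i =>
    if rho (Qn i) Q ≤ 6 * τ then toMeasurable μ2 (bad i) else ∅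
  have hV : ∀ i, MeasurableSet (V i) := by
    intro i
    by_cases hi : rho (Qn i) Q ≤ 6 * τ
    · simp only [V, if_pos hi]; exact measurableSet_toMeasurable _ _
    · simp only [V, if_neg hi]; exact MeasurableSet.empty
  have hVm : ∀ i, μ2 (V i) ≤ 2 * ENNReal.ofReal a := by
    intro i
    by_cases hi : rho (Qn i) Q ≤ 6 * τ
    · simp only [V, if_pos hi]
      rw [measure_toMeasurable]
      calc μ2 (bad i) ≤ _ := blocks_tv N m (Qn i) Q hi (bad i)
        _ ≤ ENNReal.ofReal a + ENNReal.ofReal a := add_le_add (hB2 (Qn i) (hQn i) f hf) hNm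
        _ = _ := by ring
    · simp only [V, if_neg hi]; simp
  let S1 : Set ((Fin n → X) × (Fin N → Fin m → X)) :=
    {z | ¬ rho (Qn (T z)) Q ≤ 6 * τ} ×ˢ Set.univ
  let S2 : Set ((Fin n → X) × (Fin N → Fin m → X)) := ⋃ i, (T ⁻¹' {i}) ×ˢ (V i)
  have hS2 : MeasurableSet S2 :=
    MeasurableSet.iUnion fun i => (hT (measurableSet_singleton i)).prod (hV i)
  have hm1 : (μ1.prod μ2) S1 ≤ ENNReal.ofReal a := by
    rw [Measure.prod_prod]
    simp only [measure_univ, mul_one]
    exact hTest Q (hQcov Q hQ)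
  have hm2 : (μ1.prod μ2) S2 ≤ 2 * ENNReal.ofReal a := by
    rw [Measure.prod_apply hS2]
    calc ∫⁻ x, μ2 (Prod.mk x ⁻¹' S2) ∂μ1 ≤ ∫⁻ x, 2 * ENNReal.ofReal a ∂μ1 := by
          refine lintegral_mono fun x => le_trans (measure_mono ?_) (hVm (T x))
          intro y hy
          simp only [S2, Set.mem_preimage, Set.mem_iUnion, Set.mem_prod,
            Set.mem_singleton_iff] at hy
          obtain ⟨i, hi, hy⟩ := hy
          rw [hi]; exact hy
      _ = _ := by simp
  refine le_trans (measure_mono (t := (fun (z : Fin M → X) =>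
        ((fun i => z (j (Sum.inl i)), fun b i => z (j (Sum.inr (b, i)))) :
          (Fin n → X) × (Fin N → Fin m → X))) ⁻¹' (S1 ∪ S2)) ?_) ?_
  · intro z hz
    have hz' : ENNReal.ofReal e < D Q f (BQ (Qn (T fun i => z (j (Sum.inl i))))
      fun b i => (z (j (Sum.inr (b, i))), f (z (j (Sum.inr (b, i)))))) := hz
    by_cases hgood : rho (Qn (T fun i => z (j (Sum.inl i)))) Q ≤ 6 * τ
    · right
      simp only [S2, Set.mem_iUnion, Set.mem_prod]
      refine ⟨T fun i => z (j (Sum.inl i)), rfl, ?_⟩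
      simp only [V, if_pos hgood]
      refine subset_toMeasurable _ _ ?_
      change 7 * ENNReal.ofReal a < D _ f _
      by_contra hcon
      have h1 := D_tv _ _ hgood f (BQ (Qn (T fun i => z (j (Sum.inl i))))
        fun b i => (z (j (Sum.inr (b, i))), f (z (j (Sum.inr (b, i))))))
      have h2 := h1.trans (add_le_add (not_lt.mp hcon) (ENNReal.ofReal_le_ofReal h6a))
      have h3 : 7 * ENNReal.ofReal a + ENNReal.ofReal a ≤ ENNReal.ofReal e := by
        have : 7 * ENNReal.ofReal a + ENNReal.ofReal a = ENNReal.ofReal (8 * a) := by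
          rw [ENNReal.ofReal_mul (by norm_num), ENNReal.ofReal_ofNat]; ring
        rw [this]
        refine ENNReal.ofReal_le_ofReal ?_
        rw [ha]; linarith
      exact absurd hz' (not_lt.mpr (h2.trans h3))
    · left
      exact ⟨hgood, trivial⟩
  · refine (Measure.le_map_apply hmp.measurable.aemeasurable _).trans ?_
    rw [hmp.map_eq]
    calc (μ1.prod μ2) (S1 ∪ S2) ≤ (μ1.prod μ2) S1 + (μ1.prod μ2) S2 := measure_union_le _ _
      _ ≤ ENNReal.ofReal a + 2 * ENNReal.ofReal a := add_le_add hm1 hm2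
      _ = ENNReal.ofReal (3 * a) := by
          rw [ENNReal.ofReal_mul (by norm_num), ENNReal.ofReal_ofNat]; ring
      _ ≤ ENNReal.ofReal e := by
          refine ENNReal.ofReal_le_ofReal ?_
          rw [ha]; linarith


/-- PAC learnability passes to the convex hull. -/
lemma hull_learnable (Ps : Set (ProbabilityMeasure X)) (h : TotBdd Ps)
    (F : Set (X → unitInterval)) (hF : ∀ f ∈ F, Measurable f)
    (hL : PACLearnable Ps F) : PACLearnable (convHull Ps) F := by
  classical
  obtain ⟨A, hA⟩ := hL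
  by_cases hX : IsEmpty X
  · refine ⟨A, hA.1, fun ε hε => ?_⟩
    have : fail (convHull Ps) F A ε = fun _ => 0 := by
      funext m
      unfold fail
      simp only [ENNReal.iSup_eq_zero]
      intro Q _ f _
      have : (Q : Measure X) Set.univ = 1 := measure_univ
      rw [Set.univ_eq_empty_iff.mpr hX, measure_empty] at this
      exact absurd this zero_ne_one
    rw [this]; exact tendsto_const_nhds
  rw [not_isEmpty_iff] at hX
  obtain ⟨x0⟩ := hX
  by_cases hne : (convHull Ps).Nonempty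
  swap
  · refine ⟨A, hA.1, fun ε hε => ?_⟩
    have : fail (convHull Ps) F A ε = fun _ => 0 := by
      funext m
      unfold fail
      simp only [ENNReal.iSup_eq_zero]
      intro Q hQ
      exact absurd ⟨Q, hQ⟩ hne
    rw [this]; exact tendsto_const_nhds
  set f₀ := A 0 (fun i => (x0, 0)) with hf0
  have hf₀ : f₀ ∈ F := hA.1 _ _
  let good : ℕ → ∀ M : ℕ, ((Fin M → X × unitInterval) → (X → unitInterval)) → Prop :=
    fun n M B => (∀ s, B s ∈ F) ∧ ∀ Q ∈ convHull Ps, ∀ f ∈ F,
        (Measure.pi (fun _ : Fin M => (Q : Measure X)))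
          {z | ENNReal.ofReal (1 / (n + 1)) < D Q f (B fun i => (z i, f (z i)))} ≤
            ENNReal.ofReal (1 / (n + 1))
  have hgood : ∀ n : ℕ, ∃ M0 : ℕ, ∀ M ≥ M0, ∃ B, good n M B := by
    intro n
    have h1 : (0:ℝ) < 1 / (n + 1) := by positivity
    have h2 : (1:ℝ) / (n + 1) ≤ 1 := by
      rw [div_le_one (by positivity)]
      have : (0:ℝ) ≤ n := Nat.cast_nonneg n
      linarith
    exact learn_unknown Ps h F hF A hA hne f₀ hf₀ _ h1 h2
  let nn : ℕ → ℕ := fun M => Nat.findGreatest (fun n => ∃ B, good n M B) M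
  let A' : Algo X := fun M =>
    if h : ∃ B, good (nn M) M B then h.choose else fun _ => f₀
  refine ⟨A', ?_, ?_⟩
  · intro M s
    by_cases hM : ∃ B, good (nn M) M B
    · simp only [A', dif_pos hM]; exact hM.choose_spec.1 s
    · simp only [A', dif_neg hM]; exact hf₀
  · intro ε hε
    rw [ENNReal.tendsto_atTop_zero]
    intro δ hδ
    obtain ⟨δ', hδ'0, hδ'⟩ : ∃ δ' : ℝ, 0 < δ' ∧ ENNReal.ofReal δ' ≤ δ := by
      by_cases ht : δ = ∞
      · exact ⟨1, one_pos, by rw [ht]; exact le_top⟩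
      · exact ⟨δ.toReal, ENNReal.toReal_pos hδ.ne' ht, by rw [ENNReal.ofReal_toReal ht]⟩
    obtain ⟨n, hn⟩ := exists_nat_one_div_lt (lt_min hε hδ'0)
    obtain ⟨M0, hM0⟩ := hgood n
    refine ⟨max M0 n, fun M hM => ?_⟩
    have hMM0 : M ≥ M0 := le_trans (le_max_left _ _) hM
    have hMn : n ≤ M := le_trans (le_max_right _ _) hM
    have hspec : ∃ B, good (nn M) M B :=
      Nat.findGreatest_spec (P := fun n => ∃ B, good n M B) hMn (hM0 M hMM0)
    have hnn : n ≤ nn M := Nat.le_findGreatest hMn (hM0 M hMM0)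
    have hA' : A' M = hspec.choose := dif_pos hspec
    have hB := hspec.choose_spec
    have hle : (1:ℝ) / (nn M + 1) ≤ 1 / (n + 1) := by
      apply one_div_le_one_div_of_le (by positivity)
      have : (n:ℝ) ≤ nn M := by exact_mod_cast hnn
      linarith
    have hle1 : (1:ℝ) / (nn M + 1) ≤ ε := hle.trans (hn.le.trans (min_le_left _ _))
    have hle2 : (1:ℝ) / (nn M + 1) ≤ δ' := hle.trans (hn.le.trans (min_le_right _ _))
    refine iSup₂_le fun Q hQ => iSup₂_le fun f hf => ?_
    refine le_trans (measure_mono ?_) ((hB.2 Q hQ f hf).trans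
      ((ENNReal.ofReal_le_ofReal hle2).trans hδ'))
    intro z hz
    have hz' : ε < dist1 Q f (A' M (fun i => (z i, f (z i)))) := hz
    change ENNReal.ofReal (1 / (nn M + 1)) < D Q f (hspec.choose fun i => (z i, f (z i)))
    rw [hA'] at hz'
    rw [← ofReal_dist1 _ _ _ (hF f hf) (hF _ (hB.1 _))]
    exact (ENNReal.ofReal_lt_ofReal_iff (hε.trans hz')).mpr (lt_of_le_of_lt hle1 hz')

/-- For a totally bounded family `Ps` of probability measures and a class `F` of measurable
functions `X → [0,1]` that is PAC learnable with respect to `Ps`, `F` is PAC learnable with respect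
to the closure, the convex hull and the closed convex hull of `Ps`. -/
theorem result (X : Type u) [MeasurableSpace X] (Ps : Set (ProbabilityMeasure X))
    (hPs : TotBdd Ps) (F : Set (X → unitInterval)) (hF : ∀ f ∈ F, Measurable f)
    (hL : PACLearnable Ps F) :
    PACLearnable (tvClosure Ps) F ∧ PACLearnable (convHull Ps) F ∧
      PACLearnable (tvClosure (convHull Ps)) F :=
  ⟨(Closure.result X Ps F hF).2 hL, hull_learnable Ps hPs F hF hL,
    (Closure.result X (convHull Ps) F hF).2 (hull_learnable Ps hPs F hF hL)⟩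

end Pool.Agent.Results.MP_ab635e_lc.Full
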